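import Pool.Agent.W619.Y.Stm7
import Pool.Agent.W73.PG.PULL
import Pool.Agent.W636.PG.Trans

/-! Project PG, part TRANSP: pairs under finite extensions. -/

set_option autoImplicit false
set_option linter.overlappingInstances false
set_option linter.unusedSectionVars false

universe u v

open FF IntermediateField Pool.Agent.W619.PQ Pool.Agent.W619.PL Pool.Agent.W619.TW
  Pool.Agent.W603.LV Pool.Agent.W619.Y

namespace Pool.Agent.W736.PG

open Pool.Agent.W73.PG.PULL (sum_app exists_over')

theorem main (h : S_FRAME.{u, v}) (h' : S_DIVI.{u, v}) : S_TRANSP.{u, v} := by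
  classical
  intro k K L _ _ _ _ _ _ _ _ _ n hn hFD δ δ' hδ
  obtain ⟨y, hy⟩ := Pool.Agent.W636.PG.exists_basis k K n hn
  obtain ⟨E, hE⟩ := Pool.Agent.W636.PG.exists_duals k K n y hy
  have hyL : IsTranscendenceBasis k (algebraMap K L ∘ y) := hy.algebraMap_comp
  obtain ⟨E', hE'⟩ := Pool.Agent.W636.PG.exists_duals k L n _ hyL
  let Φ : ℕ → ((Fin n → Derivation k K K) → K) → (Fin n → Derivation k L L) → L :=
    fun m ω D => (Matrix.of fun a b => D a (algebraMap K L (y b))).det ^ m *
      algebraMap K L (ω E)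
  have hS : ∀ S : Finset K, ∃ S' : Finset L, ∀ m j ω, IsPairSec k K n δ S m j ω →
      IsPairSec k L n δ' S' m j (Φ m ω) := by
    intro S
    refine ⟨S.image (algebraMap K L), fun m j ω hω => ⟨?_, ?_⟩⟩
    · intro A D
      have e : (Matrix.of fun a b => (∑ j, A a j • D j) (algebraMap K L (y b))) =
          A * Matrix.of fun a b => D a (algebraMap K L (y b)) := by
        ext a b
        rw [Matrix.of_apply, Matrix.mul_apply, sum_app]
        rfl
      show (Matrix.of fun a b => (∑ j, A a j • D j) (algebraMap K L (y b))).det ^ m * _ = _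
      rw [e, Matrix.det_mul, mul_pow, mul_assoc]
    · intro w hw D hD
      obtain ⟨e, v, hwv⟩ := exists_over' (K := K) w
      have hv := h' k K L n v w e hwv hw
      obtain ⟨y', E'', i0, hy', hE'', ht, hyr, hpres⟩ := h k K n hn hFD v hv
      have hd := hω.2 v hv E'' (fun l f hf => hpres l f hf)
      have hX : Ge w 0 ((Matrix.of fun a c => D a (algebraMap K L (y' c))).det ^ m) := by
        have h1 : Ge w 0 (Matrix.of fun a c => D a (algebraMap K L (y' c))).det :=
          ge_det w _ (fun a c => hD a _ (hwv.reg.2 (hyr c)))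
        simpa using h1.pow m
      have hval : Φ m ω D = (Matrix.of fun a c => D a (algebraMap K L (y' c))).det ^ m *
          algebraMap K L (ω E'') :=
        Pool.Agent.W73.PG.PULL.form_eq y y' hy hy' E E'' hE hE'' ω hω.1 D
      rw [hval]
      rcases hd with hd | ⟨s, hs, hs0, hle⟩
      · left; rw [hd, map_zero, mul_zero]
      by_cases hX0 : (Matrix.of fun a c => D a (algebraMap K L (y' c))).det ^ m = 0
      · left; rw [hX0, zero_mul]
      by_cases hg0 : ω E'' = 0
      · left; rw [hg0, map_zero, mul_zero]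
      right
      refine ⟨algebraMap K L s, Finset.mem_image_of_mem _ hs, by simpa using hs0, ?_⟩
      rw [w.ord_mul hX0 (by simpa using hg0), hwv.2, hwv.2]
      have h1 : 0 ≤ w.ord ((Matrix.of fun a c => D a (algebraMap K L (y' c))).det ^ m) :=
        hX.resolve_left hX0
      have h1' : (0 : ℚ) ≤ (w.ord ((Matrix.of fun a c => D a (algebraMap K L (y' c))).det ^ m) : ℤ) := by
        exact_mod_cast h1
      have h2 : (e : ℚ) * ((j : ℚ) * v.ord s - m * δ v) ≤ e * v.ord (ω E'') :=
        mul_le_mul_of_nonneg_left hle (by positivity)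
      have h3 : (m : ℚ) * (e * δ v) ≤ m * δ' w :=
        mul_le_mul_of_nonneg_left (hδ w v e hwv) (by positivity)
      push_cast
      linarith
  have hdet : (Matrix.of fun a b => E' a (algebraMap K L (y b))).det = 1 := by
    have h1 : (Matrix.of fun a b => E' a (algebraMap K L (y b))) = 1 := by
      ext a b
      rw [Matrix.of_apply, Matrix.one_apply]
      exact hE' a b
    rw [h1, Matrix.det_one]
  have hΦ : ∀ m ω, Φ m ω E' = algebraMap K L (ω E) := by
    intro m ω
    change (Matrix.of fun a b => E' a (algebraMap K L (y b))).det ^ m *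
      algebraMap K L (ω E) = _
    rw [hdet, one_pow, one_mul]
  have hind : ∀ (S : Finset K) (S' : Finset L) (m N : ℕ),
      (∀ ω, IsPairSec k K n δ S m 1 ω → IsPairSec k L n δ' S' m 1 (Φ m ω)) →
      HasIndep k K n N (IsPairSec k K n δ S m 1) →
      HasIndep k L n N (IsPairSec k L n δ' S' m 1) := by
    intro S S' m N hSS ⟨ω, hli, hω⟩
    refine ⟨fun l => Φ m (ω l), ?_, fun l => hSS _ (hω l)⟩
    rw [Fintype.linearIndependent_iff] at hli ⊢
    intro c hc
    apply hli
    have h1 : ∑ l, c l • ω l E = 0 := by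
      have h2 := congrFun hc E'
      rw [Finset.sum_apply] at h2
      simp only [Pi.smul_apply, Pi.zero_apply, hΦ] at h2
      have h3 : algebraMap K L (∑ l, c l • ω l E) = 0 := by
        rw [← h2, map_sum]
        refine Finset.sum_congr rfl fun l _ => ?_
        rw [Algebra.smul_def, Algebra.smul_def, map_mul, ← IsScalarTower.algebraMap_apply k K L]
      exact (map_eq_zero _).1 h3
    funext D
    rw [Finset.sum_apply]
    simp only [Pi.smul_apply, Pi.zero_apply]
    have h4 : ∀ l, c l • ω l D = (Matrix.of fun i j => D i (y j)).det ^ m * (c l • ω l E) := by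
      intro l
      rw [Pool.Agent.W636.PG.form_eq k K n m y hy E hE (ω l) (hω l).1 D, mul_smul_comm]
    rw [Finset.sum_congr rfl fun l _ => h4 l, ← Finset.mul_sum, h1, mul_zero]
  refine ⟨?_, ?_⟩
  · rintro ⟨S, hSs⟩
    obtain ⟨S', hS'⟩ := hS S
    refine ⟨S', fun N => ?_⟩
    obtain ⟨j, hj, ω, hω, D, hD⟩ := hSs N
    refine ⟨j, hj, Φ (j * N) ω, hS' _ _ _ hω, E', ?_⟩
    rw [hΦ]
    intro h0
    apply hD
    rw [Pool.Agent.W636.PG.form_eq k K n (j * N) y hy E hE ω hω.1 D, (map_eq_zero _).1 h0,
      mul_zero]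
  · intro g hle S
    obtain ⟨S', hS'⟩ := hS S
    obtain ⟨C, hC⟩ := hle S'
    exact ⟨C, fun m N hm hI => hC m N hm (hind S S' m N (fun ω hω => hS' _ _ _ hω) hI)⟩

end Pool.Agent.W736.PG
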